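import Pool.Agent.Q16.Irr.Defs
import Pool.Agent.Q16.Irr.Main

/-!
# A faithful irreducible coset space with an abelian minimal closed normal subgroup missing another
closed normal subgroup
-/

open Q16.IrrDefs

namespace Pool.Agent.Results.MP_fae9ec_al.AbelianWithComplement

/-- There are a Hausdorff topological group `G`, a subgroup `H` such that `G ⧸ H` is a faithful
irreducible coset space, an abelian minimal nontrivial closed normal subgroup `M` of `G` and a
nontrivial closed normal subgroup `N` of `G` with `M ∩ N = 1`. -/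
theorem result :
    ∃ (G : Type) (_ : Group G) (_ : TopologicalSpace G) (_ : IsTopologicalGroup G) (_ : T2Space G)
      (H : Subgroup G),
      IsIrreducibleCosetSpace G H ∧ IsFaithfulCosetSpace G H ∧
      ∃ M ∈ minimalClosedNormal G, (∀ x ∈ M, ∀ y ∈ M, x * y = y * x) ∧
        ∃ N : Subgroup G, N.Normal ∧ IsClosed (N : Set G) ∧ N ≠ ⊥ ∧ M ⊓ N = ⊥ := by
  obtain ⟨b, hb⟩ := Q16.Irr.exists_irrational
  have hb0 : b ≠ 0 := by
    have := hb 0
    simpa using this
  refine ⟨Q16.Irr.G, inferInstance, inferInstance, inferInstance, inferInstance, Q16.Irr.H1,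
    ⟨Q16.Irr.isClosed_H1, Q16.Irr.H1_ne_top, Q16.Irr.maximal⟩, Q16.Irr.core, Q16.Irr.L 1,
    ⟨Q16.Irr.normal_L 1, Q16.Irr.isClosed_L 1, Q16.Irr.L_ne_bot one_ne_zero,
      fun N hN _ hNL => Q16.Irr.L_minimal N hN hNL⟩, Q16.Irr.L_comm 1 1, Q16.Irr.L b,
    Q16.Irr.normal_L b, Q16.Irr.isClosed_L b, Q16.Irr.L_ne_bot hb0, Q16.Irr.L_inf_eq_bot hb⟩

end Pool.Agent.Results.MP_fae9ec_al.AbelianWithComplement
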